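import Pool.Agent.KS6_30.Weyl.Main
import Pool.Agent.KS6_30.Weyl.Sanity

/-!
Weyl modules of the affine Kac-Moody algebra of type `A_1^{(1)}` of level `ℓ` in characteristic `p`:
if `p` is not congruent to `1` or `-1` modulo `ℓ + 2` then some Weyl module of level `ℓ` is
reducible in characteristic `p` (the only exception is `ℓ = 1`, `p = 3`). In particular, for every
level different from `1`, `2`, `4` there are infinitely many such primes.

Proof. Let `κ = ℓ + 2`, `p = κ n + r` with `2 ≤ r ≤ ℓ`. The Knizhnik-Zamolodchikov recursion gives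
in `L_ℂ(λ)`, `λ = λ_{ℓ;r}`, a vector `w_n` which pairs to `1` with the word
`f_1 f_0 f_1 ... f_0 f_1 v_λ` (`n` letters `f_0`) and to `0` with all other words in `f_0`, `f_1`.
So `w_n` is in the dual lattice of `V_ℤ(λ)`. Its norm is the coefficient of `z^n` in
`(1/r) (1-z)^(-3/(2κ)) ₂F₁(1-1/κ, (r-1)/κ; 1+r/κ; z)`, which has `p` in its denominator. Hence the
lattice is not unimodular at `p`, and `p w_n` generates a nonzero proper submodule modulo `p`.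
-/

set_option autoImplicit false

namespace Pool.Agent.Results.MP_c6e3af_al.AllLevels

open Pool.Agent.KS6_30.Affine

/-- Sanity check: the module `LC lam`, the quotient of the Verma module by the sum of all proper
submodules, is simple. -/
theorem simple_check (lam : Fin 2 → ℕ) : IsSimpleModule UA (LC lam) := lc_simple lam

/-- Sanity check: its highest weight vector is nonzero. -/
theorem vlam_check (lam : Fin 2 → ℕ) : vlam lam ≠ 0 := vlam_ne_zero lam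

lemma reducible_mod {ℓ p : ℕ} (hℓ : 0 < ℓ) (hp : p.Prime) (h1 : p % (ℓ + 2) ≠ 1)
    (h2 : p % (ℓ + 2) ≠ ℓ + 1) (hne : p ≠ ℓ + 2) :
    p % (ℓ + 2) ≤ ℓ ∧ ∀ (F : Type) [Field F] [CharP F p],
      ¬ IsIrreducible F (weight ℓ (p % (ℓ + 2))) := by
  have hlt : p % (ℓ + 2) < ℓ + 2 := Nat.mod_lt _ (by omega)
  have h0 : p % (ℓ + 2) ≠ 0 := by
    intro h
    rcases (Nat.dvd_prime hp).mp (Nat.dvd_of_mod_eq_zero h) with h | h
    · omega
    · exact hne h.symm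
  refine ⟨by omega, fun F _ _ => ?_⟩
  rcases Nat.lt_or_ge p (ℓ + 2) with h | h
  · rw [Nat.mod_eq_of_lt h] at h1 h2 ⊢
    exact reducible_small hp (by omega) F
  · refine reducible_main hp (n := p / (ℓ + 2)) (Nat.div_add_mod p (ℓ + 2)).symm ?_ (by omega)
      (by omega) F
    exact Nat.div_pos h (by omega)

lemma exists_class {ℓ : ℕ} (h1 : ℓ ≠ 1) (h2 : ℓ ≠ 2) (h4 : ℓ ≠ 4) (h0 : 0 < ℓ) :
    ∃ a : ℕ, Nat.Coprime a (ℓ + 2) ∧ 1 < a ∧ a < ℓ + 1 := by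
  rcases Nat.even_or_odd' ℓ with ⟨k, rfl | rfl⟩
  · rcases Nat.even_or_odd' k with ⟨j, rfl | rfl⟩
    · -- `ℓ + 2 = 4 j + 2`, `j ≥ 2`
      refine ⟨2 * j - 1, ?_, by omega, by omega⟩
      have e1 : 2 * (2 * j) + 2 = 4 + (2 * j - 1) * 2 := by omega
      rw [e1, Nat.coprime_add_mul_left_right]
      have : Odd (2 * j - 1) := ⟨j - 1, by omega⟩
      rw [show (4 : ℕ) = 2 ^ 2 from rfl]
      exact Nat.Coprime.pow_right 2 (Nat.coprime_two_right.mpr this)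
    · -- `ℓ + 2 = 4 j + 4`, `j ≥ 1`
      refine ⟨2 * j + 1, ?_, by omega, by omega⟩
      have e1 : 2 * (2 * j + 1) + 2 = 2 + (2 * j + 1) * 2 := by omega
      rw [e1, Nat.coprime_add_mul_left_right]
      exact Nat.coprime_two_right.mpr ⟨j, rfl⟩
  · refine ⟨2, ?_, by omega, by omega⟩
    exact Nat.coprime_two_left.mpr ⟨k + 1, by omega⟩

/-- **Main theorem.** (1) Let `ℓ ≥ 1` and let `p` be a prime number not congruent to `1` or `-1`
modulo `ℓ + 2`, `(ℓ, p) ≠ (1, 3)`. Then the Weyl module of highest weight `λ_{ℓ;n}` with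
`n = p mod (ℓ + 2)` (with `n = 1` if `p = ℓ + 2`) is reducible over every field of characteristic
`p`. (2) For every level `ℓ ≠ 1, 2, 4` there are infinitely many primes `p` for which some Weyl
module of level `ℓ` is reducible over all fields of characteristic `p`. (3) So the assertion of Q1
fails at every level `ℓ ≠ 1, 2, 4`. -/
theorem result :
    (∀ ℓ p : ℕ, 0 < ℓ → p.Prime → p % (ℓ + 2) ≠ 1 → p % (ℓ + 2) ≠ ℓ + 1 → ¬ (ℓ = 1 ∧ p = 3) →
      (if p = ℓ + 2 then 1 else p % (ℓ + 2)) ≤ ℓ ∧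
      ∀ (F : Type) [Field F] [CharP F p],
        ¬ IsIrreducible F (weight ℓ (if p = ℓ + 2 then 1 else p % (ℓ + 2)))) ∧
    (∀ ℓ : ℕ, 0 < ℓ → ℓ ≠ 1 → ℓ ≠ 2 → ℓ ≠ 4 → ∀ B : ℕ, ∃ p, B < p ∧ p.Prime ∧ ∃ n ≤ ℓ,
      ∀ (F : Type) [Field F] [CharP F p], ¬ IsIrreducible F (weight ℓ n)) ∧
    (∀ ℓ : ℕ, 0 < ℓ → ℓ ≠ 1 → ℓ ≠ 2 → ℓ ≠ 4 →
      ¬ ∀ (F : Type) [Field F] [IsAlgClosed F] (p : ℕ) [CharP F p],
        2 < p → 2 * ℓ ^ 2 + ℓ - 3 < p → ∀ n : ℕ, n ≤ ℓ → IsIrreducible F (weight ℓ n)) := by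
  have P1 : ∀ ℓ p : ℕ, 0 < ℓ → p.Prime → p % (ℓ + 2) ≠ 1 → p % (ℓ + 2) ≠ ℓ + 1 →
      ¬ (ℓ = 1 ∧ p = 3) → (if p = ℓ + 2 then 1 else p % (ℓ + 2)) ≤ ℓ ∧
      ∀ (F : Type) [Field F] [CharP F p],
        ¬ IsIrreducible F (weight ℓ (if p = ℓ + 2 then 1 else p % (ℓ + 2))) := by
    intro ℓ p hℓ hp h1 h2 h3
    by_cases hne : p = ℓ + 2
    · rw [if_pos hne]
      refine ⟨hℓ, fun F _ _ => ?_⟩
      refine reducible_crit hp hne ?_ F
      by_contra hlt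
      have h5 : p = 3 ∨ p = 4 := by omega
      rcases h5 with h5 | h5
      · exact h3 ⟨by omega, h5⟩
      · rw [h5] at hp; norm_num at hp
    · rw [if_neg hne]
      exact reducible_mod hℓ hp h1 h2 hne
  have P2 : ∀ ℓ : ℕ, 0 < ℓ → ℓ ≠ 1 → ℓ ≠ 2 → ℓ ≠ 4 → ∀ B : ℕ, ∃ p, B < p ∧ p.Prime ∧ ∃ n ≤ ℓ,
      ∀ (F : Type) [Field F] [CharP F p], ¬ IsIrreducible F (weight ℓ n) := by
    intro ℓ h0 h1 h2 h4 B
    obtain ⟨a, ha, ha1, haℓ⟩ := exists_class h1 h2 h4 h0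
    have : NeZero (ℓ + 2) := ⟨by omega⟩
    obtain ⟨p, hpB, hp, hpa⟩ := Nat.forall_exists_prime_gt_and_eq_mod
      ((ZMod.isUnit_iff_coprime a (ℓ + 2)).mpr ha) (max B (ℓ + 2))
    have hmod : p % (ℓ + 2) = a := by
      have h5 := (ZMod.natCast_eq_natCast_iff' p a (ℓ + 2)).mp hpa
      rwa [Nat.mod_eq_of_lt (show a < ℓ + 2 by omega)] at h5
    have hB : B < p := lt_of_le_of_lt (le_max_left _ _) hpB
    have hℓp : ℓ + 2 < p := lt_of_le_of_lt (le_max_right _ _) hpB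
    obtain ⟨h6, h7⟩ := reducible_mod h0 hp (by omega) (by omega) (by omega)
    exact ⟨p, hB, hp, _, h6, h7⟩
  refine ⟨P1, P2, fun ℓ h0 h1 h2 h4 H => ?_⟩
  obtain ⟨p, hpB, hp, n, hn, h⟩ := P2 ℓ h0 h1 h2 h4 (max 2 (2 * ℓ ^ 2 + ℓ - 3))
  have : Fact p.Prime := ⟨hp⟩
  exact h (AlgebraicClosure (ZMod p)) (H (AlgebraicClosure (ZMod p)) p
    (lt_of_le_of_lt (le_max_left _ _) hpB) (lt_of_le_of_lt (le_max_right _ _) hpB) n hn)

end Pool.Agent.Results.MP_c6e3af_al.AllLevels
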